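import Pool.Agent.H69.LQ.Lib
import Pool.Agent.H69.LNN.Targets

/-!
# MP_8f7db2_an: row VE: the first exit and the last hole
-/

set_option autoImplicit false

open MeasureTheory Metric Set
open scoped ENNReal
open Pool.Agent.H85.LK (E adm lam Ann)
open Pool.Agent.H69.LQ Pool.Agent.H69.LNN

namespace Pool.Agent.H94.LNN

/-- the directions whose segment is contained in an open set -/
theorem ve_open {N : ℕ} {Ω : Set (E N)} (hΩ : IsOpen Ω) (a c : ℝ) :
    IsOpen {θ : Sp N | ∀ r ∈ Icc a c, r • (θ : E N) ∈ Ω} := by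
  rw [isOpen_iff_eventually]
  intro θ hθ
  refine isCompact_Icc.eventually_forall_of_forall_eventually fun r hr => ?_
  have h3 : Continuous fun z : Sp N × ℝ => z.2 • (z.1 : E N) := by fun_prop
  exact (hΩ.preimage h3).mem_nhds (hθ r hr)

theorem ve_closed {N : ℕ} {Ω : Set (E N)} (hΩ : IsOpen Ω) (a b c : ℝ) (θ : Sp N) :
    IsClosed {r : ℝ | r ∈ Icc a b ∧ (r • (θ : E N) ∉ Ω ∨ r = c)} := by
  have h1 : Continuous fun r : ℝ => r • (θ : E N) := by fun_prop
  have h2 : {r : ℝ | r ∈ Icc a b ∧ (r • (θ : E N) ∉ Ω ∨ r = c)} =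
      Icc a b ∩ ((fun r : ℝ => r • (θ : E N)) ⁻¹' Ωᶜ ∪ {c}) := by
    ext r
    simp only [mem_ofPred_eq, mem_inter_iff, mem_union, mem_preimage, mem_compl_iff,
      mem_singleton_iff]
  rw [h2]
  exact isClosed_Icc.inter ((hΩ.isClosed_compl.preimage h1).union isClosed_singleton)

theorem pf_VE (_hMP : T_MP) : T_VE := by
  intro N Ω a hN hΩ ha ha1
  have hbb : a ≤ bb N := by
    have h0 : (0 : ℝ) ≤ 20 / Real.sqrt N := by positivity
    unfold bb
    linarith
  set b := bb N with hb
  -- the first exit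
  set K : Sp N → Set ℝ := fun θ => {r | r ∈ Icc a b ∧ (r • (θ : E N) ∉ Ω ∨ r = b)} with hK
  have hbK : ∀ θ, b ∈ K θ := fun θ => ⟨⟨hbb, le_rfl⟩, Or.inr rfl⟩
  have hbdK : ∀ θ, BddBelow (K θ) := fun θ => ⟨a, fun r hr => hr.1.1⟩
  set R : Sp N → ℝ := fun θ => sInf (K θ) with hR
  have hmemK : ∀ θ, R θ ∈ K θ := fun θ =>
    (ve_closed hΩ a b b θ).csInf_mem ⟨b, hbK θ⟩ (hbdK θ)
  have hleK : ∀ θ r, r ∈ K θ → R θ ≤ r := fun θ r hr => csInf_le (hbdK θ) hr
  have hins : ∀ (θ : Sp N) (r : ℝ), a ≤ r → r < R θ → r • (θ : E N) ∈ Ω := by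
    intro θ r h0 hr
    by_contra hcon
    have h1 : r ∈ K θ := ⟨⟨h0, hr.le.trans (hmemK θ).1.2⟩, Or.inl hcon⟩
    exact absurd (hleK θ r h1) (not_le.mpr hr)
  -- the last hole
  set H : Sp N → Set ℝ := fun θ => {r | r ∈ Icc 0 a ∧ (r • (θ : E N) ∉ Ω ∨ r = 0)} with hH
  have h0H : ∀ θ, (0 : ℝ) ∈ H θ := fun θ => ⟨⟨le_rfl, ha.le⟩, Or.inr rfl⟩
  have hbdH : ∀ θ, BddAbove (H θ) := fun θ => ⟨a, fun r hr => hr.1.2⟩
  set r₁ : Sp N → ℝ := fun θ => sSup (H θ) with hr₁
  have hmemH : ∀ θ, r₁ θ ∈ H θ := fun θ =>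
    (ve_closed hΩ 0 a 0 θ).csSup_mem ⟨0, h0H θ⟩ (hbdH θ)
  have hleH : ∀ θ r, r ∈ H θ → r ≤ r₁ θ := fun θ r hr => le_csSup (hbdH θ) hr
  refine ⟨R, r₁, ?_, ?_, fun θ => (hmemK θ).1.1, fun θ => (hmemK θ).1.2, hins, ?_,
    fun θ => (hmemH θ).1.1, fun θ => (hmemH θ).1.2, ?_, ?_⟩
  · refine measurable_of_Ioi fun c => ?_
    by_cases hc : c < b
    · have h1 : R ⁻¹' Ioi c = {θ : Sp N | ∀ r ∈ Icc a c, r • (θ : E N) ∈ Ω} := by
        ext θ
        rw [mem_preimage, mem_Ioi, mem_ofPred_eq]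
        constructor
        · intro h r hr
          exact hins θ r hr.1 (hr.2.trans_lt h)
        · intro h
          by_contra hcon
          push Not at hcon
          have h2 := hmemK θ
          rcases h2.2 with h3 | h3
          · exact h3 (h (R θ) ⟨h2.1.1, hcon⟩)
          · rw [h3] at hcon
            linarith
      rw [h1]
      exact (ve_open hΩ a c).measurableSet
    · have h1 : R ⁻¹' Ioi c = ∅ := by
        ext θ
        rw [mem_preimage, mem_Ioi]
        constructor
        · intro h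
          have := (hmemK θ).1.2
          push Not at hc
          linarith
        · intro h
          exact absurd h (notMem_empty _)
      rw [h1]
      exact MeasurableSet.empty
  · refine measurable_of_Iio fun c => ?_
    rcases le_or_gt c 0 with hc0 | hc0
    · have h1 : r₁ ⁻¹' Iio c = ∅ := by
        ext θ
        rw [mem_preimage, mem_Iio]
        constructor
        · intro h
          have := (hmemH θ).1.1
          linarith
        · intro h
          exact absurd h (notMem_empty _)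
      rw [h1]
      exact MeasurableSet.empty
    rcases le_or_gt c a with hca | hca
    · have h1 : r₁ ⁻¹' Iio c = {θ : Sp N | ∀ r ∈ Icc c a, r • (θ : E N) ∈ Ω} := by
        ext θ
        rw [mem_preimage, mem_Iio, mem_ofPred_eq]
        constructor
        · intro h r hr
          by_contra hcon
          have h2 : r ∈ H θ := ⟨⟨hc0.le.trans hr.1, hr.2⟩, Or.inl hcon⟩
          have h3 := hleH θ r h2
          linarith [hr.1]
        · intro h
          by_contra hcon
          push Not at hcon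
          have h2 := hmemH θ
          rcases h2.2 with h3 | h3
          · exact h3 (h (r₁ θ) ⟨hcon, h2.1.2⟩)
          · rw [h3] at hcon
            linarith
      rw [h1]
      exact (ve_open hΩ c a).measurableSet
    · have h1 : r₁ ⁻¹' Iio c = univ := by
        ext θ
        rw [mem_preimage, mem_Iio]
        exact ⟨fun _ => mem_univ _, fun _ => lt_of_le_of_lt (hmemH θ).1.2 hca⟩
      rw [h1]
      exact MeasurableSet.univ
  · intro θ h
    rcases (hmemK θ).2 with h3 | h3
    · exact h3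
    · rw [h3] at h
      exact absurd h (lt_irrefl _)
  · intro θ h
    rcases (hmemH θ).2 with h3 | h3
    · exact h3
    · rw [h3] at h
      exact absurd h (lt_irrefl _)
  · intro θ r h1 h2
    by_contra hcon
    have h3 : r ∈ H θ := ⟨⟨(hmemH θ).1.1.trans h1.le, h2.le⟩, Or.inl hcon⟩
    exact absurd (hleH θ r h3) (not_le.mpr h1)

end Pool.Agent.H94.LNN
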